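import Pool.Agent.H71.FX.Targets2

/-! Row CH of the board fxm (MP_64fb07_lc): a small set closed under preimages or a long chain. -/

set_option autoImplicit false

namespace Pool.Agent.H21.FX

open Pool.Agent.H71.FX Pool.Agent.H71.PF

theorem pf_CH (pc : T_PC) (oc : T_OC) : T_CH := by
  intro P M haK hM
  obtain ⟨N, hN⟩ := oc P M
  refine ⟨N, ?_⟩
  intro α _ m hwf hcard
  by_cases hK : ∃ K0 : Set α, Free P m K0 ∧ K0.ncard ≤ M
  · exact Or.inl hK
  · right
    by_cases hr : ∀ x : α, ∃ y, ∃ i < P.a, ∃ k, m.f^[k] (m.w y i) = x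
    · exact hN α m hwf hcard hr
    · push Not at hr
      obtain ⟨x, hx⟩ := hr
      refine pc P M α m haK hwf hM ?_ x hx
      intro K0 hK0
      by_contra hc
      exact hK ⟨K0, hK0, not_lt.1 hc⟩

end Pool.Agent.H21.FX
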