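import Pool.Agent.H71.FX.Targets

/-! Row D1 of the board fxm (MP_64fb07_lc): the rules for the directions are Boolean combinations of
equalities. -/

set_option autoImplicit false

namespace Pool.Agent.H21.FX

open Pool.Agent.H71.FX Pool.Agent.H71.PF Pool.Agent.H8.PL

theorem pf_D1 (dw : T_DW) : T_D1 := by
  intro Q e b
  have E := fun w w' : List ℕ => dw w w' b b
  have h1 := (E [7] []).not.imp ((E [2, 1] []).and ((E [6, 1] [1]).not.and
    (((E [8, 1] [1]).iff (E [8] [])).and ((E [9, 1] [1]).iff (E [9] [])))))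
  have h2 := (E [6] []).not.imp ((E [1, 2] []).and (E [7, 2] [2]).not)
  have h3 := (E [9] []).not.imp ((E [4, 3] []).and ((E [8, 3] [3]).not.and
    (((E [6, 3] [3]).iff (E [6] [])).and ((E [7, 3] [3]).iff (E [7] [])))))
  have h4 := (E [8] []).not.imp ((E [3, 4] []).and (E [9, 4] [4]).not)
  have h5 := (E [7] []).not.imp ((E [9] []).not.imp (E [1, 3] [3, 1]))
  exact (h1.and (h2.and (h3.and (h4.and h5)))).congr fun α f g x y => Iff.rfl

end Pool.Agent.H21.FX
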