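import Pool.Agent.H71.FX.Targets2

/-! Row HC of the board fxm (MP_64fb07_lc): moving the elements of the chain near one element. -/

set_option autoImplicit false

namespace Pool.Agent.H21.FX

open Pool.Agent.H71.FX Pool.Agent.H71.PF

theorem pf_HC : T_HC := by
  intro P α m e M ℓ s ρ haK hwf hch hBs hsM hℓ hrad
  obtain ⟨c1, c2, c3, c4⟩ := hch
  obtain ⟨hDρ, hρB, hr⟩ := hrad
  have hin : ∀ u, s ≤ u + ρ → u ≤ s + ρ → hh e ℓ ρ s (e u) = Sum.inr (u : ZMod ℓ) := by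
    intro u h1 h2
    have hex : ∃ u', s ≤ u' + ρ ∧ u' ≤ s + ρ ∧ e u' = e u := ⟨u, h1, h2, rfl⟩
    unfold hh
    rw [dif_pos hex]
    obtain ⟨h3, h4, h5⟩ := hex.choose_spec
    have h6 : hex.choose = u := c2 _ (by omega) _ (by omega) h5
    rw [h6]
  have hout : ∀ y, (¬ ∃ u, s ≤ u + ρ ∧ u ≤ s + ρ ∧ e u = y) → hh e ℓ ρ s y = Sum.inl y := by
    intro y hy
    unfold hh
    rw [dif_neg hy]
  have hmod : ∀ u u' : ℕ, s ≤ u + ρ → u ≤ s + ρ → s ≤ u' + ρ → u' ≤ s + ρ → u ≤ u' →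
      (u : ZMod ℓ) = (u' : ZMod ℓ) → u = u' := by
    intro u u' h1 h2 h3 h4 h5 h6
    rw [ZMod.natCast_eq_natCast_iff] at h6
    have h7 : ℓ ∣ u' - u := (Nat.modEq_iff_dvd' h5).1 h6
    have h8 : u' - u = 0 := Nat.eq_zero_of_dvd_of_lt h7 (by omega)
    omega
  refine ⟨?_, hin, ?_, ?_⟩
  · intro y y' hyy
    by_cases hy : ∃ u, s ≤ u + ρ ∧ u ≤ s + ρ ∧ e u = y
    · obtain ⟨u, h1, h2, rfl⟩ := hy
      rw [hin u h1 h2] at hyy
      by_cases hy' : ∃ u, s ≤ u + ρ ∧ u ≤ s + ρ ∧ e u = y'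
      · obtain ⟨u', h3, h4, rfl⟩ := hy'
        rw [hin u' h3 h4] at hyy
        have h5 := Sum.inr_injective hyy
        rcases le_total u u' with h6 | h6
        · rw [hmod u u' h1 h2 h3 h4 h6 h5]
        · rw [hmod u' u h3 h4 h1 h2 h6 h5.symm]
      · rw [hout y' hy'] at hyy
        exact absurd hyy (by simp)
    · rw [hout y hy] at hyy
      by_cases hy' : ∃ u, s ≤ u + ρ ∧ u ≤ s + ρ ∧ e u = y'
      · obtain ⟨u', h3, h4, rfl⟩ := hy'
        rw [hin u' h3 h4] at hyy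
        exact absurd hyy (by simp)
      · rw [hout y' hy'] at hyy
        exact Sum.inl_injective hyy
  · intro i hi k hk
    obtain ⟨hr1, hr2⟩ := hr i hi k hk
    by_cases ht : ∃ u, s ≤ u + ρ ∧ u ≤ s + ρ ∧ e u = m.f^[k] (m.w (e s) i)
    · obtain ⟨u, h1, h2, h3⟩ := ht
      have h4 : u ≠ s + ρ := by
        rintro rfl
        exact hr1 h3.symm
      rw [← h3, c1 u (by omega), hin u h1 h2, hin (u + 1) (by omega) (by omega)]
      show Sum.inr ((u + 1 : ℕ) : ZMod ℓ) = Sum.inr ((u : ZMod ℓ) + 1)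
      rw [Nat.cast_add, Nat.cast_one]
    · rw [hout _ ht, hout]
      · rfl
      · rintro ⟨u, h1, h2, h3⟩
        obtain ⟨u', rfl⟩ : ∃ u', u = u' + 1 := ⟨u - 1, by omega⟩
        have h4 := c3 u' (by omega) _ h3.symm
        by_cases h5 : s ≤ u' + ρ
        · exact ht ⟨u', h5, by omega, h4.symm⟩
        · have h6 : u' = s - ρ - 1 := by omega
          rw [h6] at h4
          exact hr2 h4
  · intro z hz
    apply hout
    rintro ⟨u, h1, h2, rfl⟩
    exact c4 u (by omega) hz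

end Pool.Agent.H21.FX
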